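import Pool.Agent.Y273.MU.Main

/-!
# Multipliers with values in a discrete ring

Owner helper273.
-/

set_option autoImplicit false

open Complex Metric Set Filter Topology

namespace Pool.Agent.Y273.MU

open Pool.Agent.H713R2

theorem koebe_inS : InS fun n => (n : ℂ) := by
  refine ⟨by simp, by simp, fun z => z / (1 - z) ^ 2, fun z hz => ?_, ?_⟩
  · have h1 : ‖z‖ < 1 := by simpa using hz
    exact hasSum_coe_mul_geometric_of_norm_lt_one h1
  · intro z hz w hw h
    have hz1 : ‖z‖ < 1 := by simpa using hz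
    have hw1 : ‖w‖ < 1 := by simpa using hw
    have hz2 : (1 - z) ≠ 0 := by
      intro h0
      have : z = 1 := (sub_eq_zero.1 h0).symm
      rw [this, norm_one] at hz1
      exact lt_irrefl _ hz1
    have hw2 : (1 - w) ≠ 0 := by
      intro h0
      have : w = 1 := (sub_eq_zero.1 h0).symm
      rw [this, norm_one] at hw1
      exact lt_irrefl _ hw1
    simp only at h
    rw [div_eq_div_iff (pow_ne_zero 2 hz2) (pow_ne_zero 2 hw2)] at h
    have h3 : (z - w) * (1 - z * w) = 0 := by linear_combination h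
    rcases mul_eq_zero.1 h3 with h4 | h4
    · exact sub_eq_zero.1 h4
    · exfalso
      have h5 : z * w = 1 := (sub_eq_zero.1 h4).symm
      have h6 : ‖z‖ * ‖w‖ = 1 := by rw [← norm_mul, h5, norm_one]
      have h7 : ‖z‖ * ‖w‖ ≤ ‖z‖ * 1 := mul_le_mul_of_nonneg_left hw1.le (norm_nonneg _)
      linarith

theorem rot_mult {l : ℕ → ℂ} {u : ℂ} (hu0 : u ≠ 0) (hu : ‖u‖ ≤ 1)
    (hl : ∀ n, 1 ≤ n → l n = u ^ (n - 1)) : IsMultiplier l := by
  rintro a ⟨ha0, ha1, f, hf, hinj⟩
  refine ⟨by simp [ha0], by simp [hl 1 le_rfl, ha1], fun z => u⁻¹ * f (u * z), ?_, ?_⟩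
  · intro z hz
    have hz1 : ‖z‖ < 1 := by simpa using hz
    have huz : u * z ∈ ball (0:ℂ) 1 := by
      rw [mem_ball_zero_iff, norm_mul]
      calc ‖u‖ * ‖z‖ ≤ 1 * ‖z‖ := mul_le_mul_of_nonneg_right hu (norm_nonneg _)
        _ < 1 := by linarith
    have h1 := (hf _ huz).mul_left u⁻¹
    have h2 : (fun n => u⁻¹ * (a n * (u * z) ^ n)) = fun n => l n * a n * z ^ n := by
      funext n
      rcases Nat.eq_zero_or_pos n with h | h
      · subst h
        simp [ha0]
      · obtain ⟨m, rfl⟩ : ∃ m, n = m + 1 := ⟨n - 1, by omega⟩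
        rw [hl _ h, Nat.add_sub_cancel, mul_pow, pow_succ u]
        field_simp
    rwa [h2] at h1
  · intro z hz w hw h
    have hz1 : ‖z‖ < 1 := by simpa using hz
    have hw1 : ‖w‖ < 1 := by simpa using hw
    have h1 : f (u * z) = f (u * w) := by
      simpa [hu0] using h
    have h2 := hinj (by
      rw [mem_ball_zero_iff, norm_mul]
      calc ‖u‖ * ‖z‖ ≤ 1 * ‖z‖ := mul_le_mul_of_nonneg_right hu (norm_nonneg _)
        _ < 1 := by linarith) (by
      rw [mem_ball_zero_iff, norm_mul]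
      calc ‖u‖ * ‖w‖ ≤ 1 * ‖w‖ := mul_le_mul_of_nonneg_right hu (norm_nonneg _)
        _ < 1 := by linarith) h1
    exact mul_left_cancel₀ hu0 h2

theorem proj_mult {l : ℕ → ℂ} (h1 : l 1 = 1) (hl : ∀ n, 2 ≤ n → l n = 0) : IsMultiplier l := by
  rintro a ⟨ha0, ha1, -⟩
  refine ⟨by simp [ha0], by simp [h1, ha1], fun z => z, fun z _ => ?_, fun z _ w _ h => h⟩
  have h2 := hasSum_single (f := fun n => l n * a n * z ^ n) 1 (fun n hn => by
    rcases Nat.eq_zero_or_pos n with h | h
    · subst h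
      simp [ha0]
    · rw [hl n (by omega)]
      simp)
  simpa [h1, ha1] using h2

/-- coefficients of `z / f` in a discrete ring -/
theorem struct {R : Subring ℂ} (hR : ∀ x ∈ R, x ≠ 0 → 1 ≤ ‖x‖) {b : ℕ → ℂ} (hb : InS b)
    (hbR : ∀ n, 1 ≤ n → b n ∈ R) :
    ∃ α β : ℂ, ‖α‖ ≤ 1 ∧ ‖β‖ ≤ 1 ∧ b 2 = α + β ∧ b 3 = b 2 ^ 2 - α * β ∧ ‖α * β‖ ≤ 1 ∧
      ∀ z ∈ ball (0:ℂ) 1, (1 - α * z) * (1 - β * z) ≠ 0 ∧
        HasSum (fun n => b n * z ^ n) (z / ((1 - α * z) * (1 - β * z))) := by
  obtain ⟨f, Y, hf, hYd, hY0, hfY, ht0, hmul, harea⟩ := quot hb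
  have hb1 : b 1 = 1 := hb.2.1
  have hmem : ∀ n, tc Y n ∈ R := by
    intro n
    induction n using Nat.strong_induction_on with
    | _ n ih =>
      rcases Nat.eq_zero_or_pos n with h | h
      · subst h
        rw [ht0]
        exact R.one_mem
      · have h2 := hmul n
        rw [if_neg (by omega), Finset.sum_range_succ'] at h2
        simp only [Nat.sub_zero, zero_add, hb1, one_mul] at h2
        have h3 : tc Y n = -∑ k ∈ Finset.range n, b (k + 1 + 1) * tc Y (n - (k + 1)) := by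
          linear_combination h2
        rw [h3]
        refine R.neg_mem (R.sum_mem fun k hk => ?_)
        exact R.mul_mem (hbR _ (by omega)) (ih _ (by omega))
  -- vanishing from 3 on
  have hj : ∀ j : ℕ, 2 ≤ j → ((j : ℝ) - 1) * ‖tc Y j‖ ^ 2 ≤ 1 := by
    intro j hj
    have h2 := harea (j + 1) (by omega)
    rw [Finset.sum_range_succ, Finset.range_eq_Ico, Finset.sum_eq_sum_Ico_succ_bot (by omega)] at h2
    simp only [ht0, norm_one] at h2
    have h3 : 0 ≤ ∑ k ∈ Finset.Ico (0 + 1) j, ((k : ℝ) - 1) * ‖tc Y k‖ ^ 2 := by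
      refine Finset.sum_nonneg fun k hk => ?_
      have h4 : 1 ≤ k := (Finset.mem_Ico.1 hk).1
      have h5 : (1:ℝ) ≤ k := by exact_mod_cast h4
      have h6 : (0:ℝ) ≤ (k:ℝ) - 1 := by linarith
      positivity
    push_cast at h2 h3
    linarith
  have h3z : ∀ j, 3 ≤ j → tc Y j = 0 := by
    intro j h3
    by_contra hne
    have h1 := hR _ (hmem j) hne
    have h2 := hj j (by omega)
    have h4 : (3:ℝ) ≤ j := by exact_mod_cast h3
    have h5 : (1:ℝ) ≤ ‖tc Y j‖ ^ 2 := by nlinarith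
    nlinarith
  have h2n : ‖tc Y 2‖ ≤ 1 := by
    have h2 := hj 2 le_rfl
    norm_num at h2
    nlinarith [norm_nonneg (tc Y 2)]
  have e1 : tc Y 1 = -b 2 := by
    have h2 := hmul 1
    simp [Finset.sum_range_succ, hb1, ht0] at h2
    linear_combination h2
  have e2 : tc Y 2 = b 2 ^ 2 - b 3 := by
    have h2 := hmul 2
    simp [Finset.sum_range_succ, hb1, ht0, e1] at h2
    linear_combination h2
  have hYz : ∀ z ∈ ball (0:ℂ) 1, Y z = 1 - b 2 * z + tc Y 2 * z ^ 2 := by
    intro z hz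
    have h1 := hasSum_tc hYd hz
    have h2 : HasSum (fun k => tc Y k * z ^ k) (∑ k ∈ Finset.range 3, tc Y k * z ^ k) :=
      hasSum_sum_of_ne_finset_zero (fun k hk => by
        rw [Finset.mem_range] at hk
        rw [h3z k (by omega), zero_mul])
    rw [h1.unique h2]
    simp only [Finset.sum_range_succ, Finset.sum_range_zero, ht0, e1]
    ring
  obtain ⟨s, hs⟩ : ∃ s : ℂ, s ^ 2 = (b 2 / 2) ^ 2 - tc Y 2 :=
    IsAlgClosed.exists_pow_nat_eq _ (by norm_num)
  have hfac : ∀ z ∈ ball (0:ℂ) 1, Y z = (1 - (b 2 / 2 + s) * z) * (1 - (b 2 / 2 - s) * z) := by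
    intro z hz
    rw [hYz z hz]
    linear_combination (z ^ 2) * hs
  have hnorm : ∀ γ δ : ℂ, (∀ z ∈ ball (0:ℂ) 1, Y z = (1 - γ * z) * (1 - δ * z)) → ‖γ‖ ≤ 1 := by
    intro γ δ h
    by_contra hc
    push Not at hc
    have hγ : γ ≠ 0 := by
      intro h0
      rw [h0, norm_zero] at hc
      linarith
    have hm : γ⁻¹ ∈ ball (0:ℂ) 1 := by
      rw [mem_ball_zero_iff, norm_inv]
      exact inv_lt_one_of_one_lt₀ hc
    apply hY0 _ hm
    rw [h _ hm, mul_inv_cancel₀ hγ, sub_self, zero_mul]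
  refine ⟨b 2 / 2 + s, b 2 / 2 - s, hnorm _ _ hfac, hnorm _ (b 2 / 2 + s) (fun z hz => by
    rw [hfac z hz]; ring), by ring, by linear_combination e2 - hs, ?_, ?_⟩
  · have h1 : (b 2 / 2 + s) * (b 2 / 2 - s) = tc Y 2 := by linear_combination -hs
    rw [h1]
    exact h2n
  · intro z hz
    have h1 := hY0 z hz
    rw [hfac z hz] at h1
    refine ⟨h1, ?_⟩
    have h2 : f z = z / ((1 - (b 2 / 2 + s) * z) * (1 - (b 2 / 2 - s) * z)) := by
      rw [eq_div_iff h1, ← hfac z hz]
      exact hfY z hz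
    rw [← h2]
    exact hf z hz

/-- the multipliers with values in a discrete ring -/
theorem discrete (R : Subring ℂ) (hR : ∀ x ∈ R, x ≠ 0 → 1 ≤ ‖x‖) (l : ℕ → ℂ)
    (hl : ∀ n, 1 ≤ n → l n ∈ R) : IsMultiplier l ↔
      (l 1 = 1 ∧ ∀ n, 2 ≤ n → l n = 0) ∨
        ∃ u ∈ R, ‖u‖ = 1 ∧ ∀ n, 1 ≤ n → l n = u ^ (n - 1) := by
  constructor
  swap
  · rintro (⟨h1, h2⟩ | ⟨u, -, hu, h⟩)
    · exact proj_mult h1 h2
    · exact rot_mult (by
        intro h0
        rw [h0, norm_zero] at hu
        norm_num at hu) hu.le h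
  intro hm
  have hb := hm _ koebe_inS
  obtain ⟨α, β, hα, hβ, e2, e3, hαβ, hS⟩ := struct hR hb (fun n hn =>
    R.mul_mem (hl n hn) (natCast_mem R n))
  have hl1 : l 1 = 1 := by simpa using hb.2.1
  have hunique : ∀ c : ℕ → ℂ, (∀ z ∈ ball (0:ℂ) 1,
      HasSum (fun n => c n * z ^ n) (z / ((1 - α * z) * (1 - β * z)))) →
      ∀ n : ℕ, l n * (n : ℂ) = c n := by
    intro c hc n
    have h1 := coef_unique (a := fun n => l n * (n : ℂ)) (b := c)
      (F := fun z => z / ((1 - α * z) * (1 - β * z)))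
      (by filter_upwards [ball_mem_nhds (0:ℂ) one_pos] with z hz; exact (hS z hz).2)
      (by filter_upwards [ball_mem_nhds (0:ℂ) one_pos] with z hz; exact hc z hz)
    exact congrFun h1 n
  push_cast at e2 e3
  by_cases hu : l 2 = 0
  · left
    refine ⟨hl1, ?_⟩
    have h3 : l 3 = 0 := by
      by_contra hne
      have h4 := hR _ (hl 3 (by norm_num)) hne
      have h5 : α * β = -(3 * l 3) := by
        rw [hu] at e3
        linear_combination e3
      rw [h5, norm_neg, norm_mul] at hαβ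
      have h6 : ‖(3:ℂ)‖ = 3 := by norm_num
      rw [h6] at hαβ
      linarith
    have h5 : α + β = 0 := by rw [← e2, hu]; ring
    have h6 : α * β = 0 := by
      rw [hu, h3] at e3
      linear_combination e3
    have hα0 : α = 0 := by
      have h7 : β = -α := by linear_combination h5
      rw [h7] at h6
      have h8 : α * α = 0 := by linear_combination -h6
      exact mul_self_eq_zero.1 h8
    have hβ0 : β = 0 := by rw [hα0, zero_add] at h5; exact h5
    have h7 := hunique (fun n => if n = 1 then 1 else 0) (fun z hz => by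
      have h8 := hasSum_single (f := fun n : ℕ => (if n = 1 then (1:ℂ) else 0) * z ^ n) 1
        (fun n hn => by simp [hn])
      simpa [hα0, hβ0] using h8)
    intro n hn
    have h8 := h7 n
    rw [if_neg (by omega)] at h8
    rcases mul_eq_zero.1 h8 with h9 | h9
    · exact h9
    · exfalso
      have : n = 0 := by exact_mod_cast h9
      omega
  · right
    have hu1 : ‖l 2‖ = 1 := by
      refine le_antisymm ?_ (hR _ (hl 2 (by norm_num)) hu)
      have h4 : ‖l 2 * 2‖ ≤ 2 := by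
        rw [e2]
        exact (norm_add_le _ _).trans (by linarith)
      rw [norm_mul] at h4
      have h6 : ‖(2:ℂ)‖ = 2 := by norm_num
      rw [h6] at h4
      linarith
    refine ⟨l 2, hl 2 (by norm_num), hu1, ?_⟩
    have h3 : l 3 = l 2 ^ 2 := by
      by_contra hne
      have h4 := hR _ (R.sub_mem (hl 3 (by norm_num)) (R.pow_mem (hl 2 (by norm_num)) 2))
        (sub_ne_zero.2 hne)
      have h5 : 3 * (l 3 - l 2 ^ 2) = l 2 ^ 2 - α * β := by linear_combination e3
      have h6 : ‖3 * (l 3 - l 2 ^ 2)‖ ≤ 2 := by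
        rw [h5]
        refine (norm_sub_le _ _).trans ?_
        rw [norm_pow, hu1]
        linarith
      rw [norm_mul] at h6
      have h7 : ‖(3:ℂ)‖ = 3 := by norm_num
      rw [h7] at h6
      linarith
    have h5 : α * β = l 2 ^ 2 := by
      rw [h3] at e3
      linear_combination e3
    have hα2 : (α - l 2) ^ 2 = 0 := by
      linear_combination (-α) * e2 - h5
    have hα0 : α = l 2 := by
      have := pow_eq_zero_iff (two_ne_zero) |>.1 hα2
      exact sub_eq_zero.1 this
    have hβ0 : β = l 2 := by linear_combination -e2 - hα0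
    intro n hn
    have h7 := hunique (fun n => (n : ℂ) * l 2 ^ (n - 1)) (fun z hz => by
      have hz1 : ‖l 2 * z‖ < 1 := by
        rw [norm_mul, hu1, one_mul]
        simpa using hz
      have hl20 : l 2 ≠ 0 := hu
      have h8 := (hasSum_coe_mul_geometric_of_norm_lt_one hz1).mul_left (l 2)⁻¹
      have h9 : (fun n : ℕ => (l 2)⁻¹ * ((n : ℂ) * (l 2 * z) ^ n)) =
          fun n : ℕ => (n : ℂ) * l 2 ^ (n - 1) * z ^ n := by
        funext n
        rcases Nat.eq_zero_or_pos n with h | h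
        · subst h
          simp
        · obtain ⟨m, rfl⟩ : ∃ m, n = m + 1 := ⟨n - 1, by omega⟩
          rw [Nat.add_sub_cancel, mul_pow, pow_succ (l 2)]
          field_simp
      have h10 : (l 2)⁻¹ * (l 2 * z / (1 - l 2 * z) ^ 2) =
          z / ((1 - α * z) * (1 - β * z)) := by
        rw [hα0, hβ0]
        field_simp
      rw [h9, h10] at h8
      exact h8) n
    have hn0 : (n : ℂ) ≠ 0 := by
      have : n ≠ 0 := by omega
      exact_mod_cast this
    have h8 : l n * (n : ℂ) = l 2 ^ (n - 1) * n := by rw [h7]; ring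
    exact mul_right_cancel₀ hn0 h8

end Pool.Agent.Y273.MU
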