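import Mathlib
import Pool.Agent.Helper405.AreaA
import Pool.Agent.H713R2.TC

/-!
# Coefficient multipliers of the class of univalent functions with values in a discrete ring

Owner helper273.
-/

set_option autoImplicit false

open Complex Metric Set Filter Topology

namespace Pool.Agent.Y273.MU

open Pool.Agent.H713R2

/-- `a` is the coefficient sequence of a function of the class `S`: the series `∑ a n z ^ n`
converges in the open unit disc, its sum is injective there, `a 0 = 0` and `a 1 = 1`. -/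
def InS (a : ℕ → ℂ) : Prop :=
  a 0 = 0 ∧ a 1 = 1 ∧ ∃ f : ℂ → ℂ,
    (∀ z ∈ ball (0 : ℂ) 1, HasSum (fun n => a n * z ^ n) (f z)) ∧ InjOn f (ball 0 1)

/-- `l` is a coefficient multiplier from `S` to `S` (`l 0` plays no role). -/
def IsMultiplier (l : ℕ → ℂ) : Prop := ∀ a : ℕ → ℂ, InS a → InS fun n => l n * a n

theorem diff_of_hasSum (a : ℕ → ℂ) (f : ℂ → ℂ)
    (h : ∀ z ∈ ball (0:ℂ) 1, HasSum (fun n => a n * z ^ n) (f z)) :
    DifferentiableOn ℂ f (ball 0 1) := by
  obtain ⟨p, hp⟩ : ∃ p : FormalMultilinearSeries ℂ ℂ ℂ,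
    p = FormalMultilinearSeries.ofScalars ℂ a := ⟨_, rfl⟩
  have hball : Metric.eball (0:ℂ) 1 = ball (0:ℂ) 1 := by
    rw [← Metric.eball_ofReal, ENNReal.ofReal_one]
  have hrad : 1 ≤ p.radius := by
    refine ENNReal.le_of_forall_nnreal_lt fun r hr => ?_
    have hr1 : (r : ℝ) < 1 := by exact_mod_cast hr
    have hz : ((r : ℝ) : ℂ) ∈ ball (0:ℂ) 1 := by
      rw [mem_ball_zero_iff, Complex.norm_real, Real.norm_of_nonneg r.coe_nonneg]
      exact hr1
    have ht := (h _ hz).summable.tendsto_atTop_zero.norm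
    rw [norm_zero] at ht
    refine FormalMultilinearSeries.le_radius_of_tendsto p (l := 0) ?_
    refine ht.congr fun n => ?_
    rw [hp, FormalMultilinearSeries.ofScalars_norm, norm_mul, norm_pow, Complex.norm_real,
      Real.norm_of_nonneg r.coe_nonneg]
  have hps : HasFPowerSeriesOnBall f p 0 1 := by
    refine ⟨hrad, one_pos, ?_⟩
    intro y hy
    rw [hball] at hy
    rw [zero_add]
    have h1 := h y hy
    have h2 : (fun n : ℕ => p n fun _ : Fin n => y) = fun n => a n * y ^ n := by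
      funext n
      rw [hp, FormalMultilinearSeries.ofScalars_apply_eq, smul_eq_mul]
    rw [h2]
    exact h1
  have h3 := hps.differentiableOn
  rwa [hball] at h3

/-- `z / f(z)` and the area theorem -/
theorem quot {b : ℕ → ℂ} (hb : InS b) : ∃ (f Y : ℂ → ℂ),
    (∀ z ∈ ball (0 : ℂ) 1, HasSum (fun n => b n * z ^ n) (f z)) ∧
    DifferentiableOn ℂ Y (ball 0 1) ∧ (∀ z ∈ ball (0 : ℂ) 1, Y z ≠ 0) ∧
    (∀ z ∈ ball (0 : ℂ) 1, f z * Y z = z) ∧ tc Y 0 = 1 ∧
    (∀ n, ∑ k ∈ Finset.range (n + 1), b (k + 1) * tc Y (n - k) = if n = 0 then 1 else 0) ∧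
    ∀ N, 1 ≤ N → ∑ j ∈ Finset.range N, ((j : ℝ) - 1) * ‖tc Y j‖ ^ 2 ≤ 0 := by
  obtain ⟨hb0, hb1, f, hf, hinj⟩ := hb
  have h0m : (0:ℂ) ∈ ball (0:ℂ) 1 := mem_ball_self one_pos
  have hnb : ball (0:ℂ) 1 ∈ 𝓝 (0:ℂ) := isOpen_ball.mem_nhds h0m
  have hfd := diff_of_hasSum b f hf
  have hf0 : f 0 = 0 := by
    have h1 := (hf 0 h0m).unique (hasSum_single 0 (fun n hn => by simp [hn]))
    simpa [hb0] using h1
  set p : ℂ → ℂ := dslope f 0 with hp
  have hpd : DifferentiableOn ℂ p (ball (0:ℂ) 1) := (Complex.differentiableOn_dslope hnb).mpr hfd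
  have hfp : ∀ z, f z = z * p z := by
    intro z
    have := sub_smul_dslope f 0 z
    simp only [sub_zero, hf0, smul_eq_mul] at this
    exact this.symm
  have hps : ∀ z ∈ ball (0:ℂ) 1, HasSum (fun n => b (n + 1) * z ^ n) (p z) := by
    intro z hz
    by_cases hz0 : z = 0
    · subst hz0
      have hd : deriv f 0 = b 1 := by
        have h1 := tc_unique one_pos hfd (a := b) (by
          filter_upwards [hnb] with x hx
          exact hf x hx)
        have h2 := congrFun h1 1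
        rw [h2]
        simp [tc, iteratedDeriv_one]
      have h2 : p 0 = b 1 := by rw [hp, dslope_same, hd]
      rw [h2]
      have h3 := hasSum_single (f := fun n => b (n + 1) * (0:ℂ) ^ n) 0 (fun n hn => by simp [hn])
      simpa using h3
    · have h1 := hf z hz
      have h2 : HasSum (fun n => b (n + 1) * z ^ (n + 1)) (f z) := by
        have h5 := (hasSum_nat_add_iff' (f := fun n => b n * z ^ n) 1).2 h1
        simpa [hb0] using h5
      have h3 := h2.mul_left z⁻¹
      have h4 : z⁻¹ * f z = p z := by rw [hfp z]; field_simp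
      rw [h4] at h3
      have h6 : (fun n => z⁻¹ * (b (n + 1) * z ^ (n + 1))) = fun n => b (n + 1) * z ^ n := by
        funext n
        rw [pow_succ]
        field_simp
      rwa [h6] at h3
  have hp0 : ∀ z ∈ ball (0:ℂ) 1, p z ≠ 0 := by
    intro z hz h
    by_cases hz0 : z = 0
    · subst hz0
      have h3 := (hps 0 h0m).unique (hasSum_single 0 (fun n hn => by simp [hn]))
      rw [h] at h3
      simp [hb1] at h3
    · apply hz0
      apply hinj hz h0m
      rw [hf0, hfp z, h, mul_zero]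
  set Y : ℂ → ℂ := fun z => (p z)⁻¹ with hY
  have hYd : DifferentiableOn ℂ Y (ball (0:ℂ) 1) := hpd.inv hp0
  have hY0 : ∀ z ∈ ball (0:ℂ) 1, Y z ≠ 0 := fun z hz => inv_ne_zero (hp0 z hz)
  have hfY : ∀ z ∈ ball (0:ℂ) 1, f z * Y z = z := by
    intro z hz
    rw [hfp z, hY]
    have := hp0 z hz
    field_simp
  have hpt : (fun n => b (n + 1)) = tc p := tc_unique one_pos hpd (by
    filter_upwards [hnb] with x hx
    exact hps x hx)
  have hY1 : tc Y 0 = 1 := by
    rw [tc_zero, hY]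
    have h2 : p 0 = 1 := by
      rw [← tc_zero p, ← hpt]
      exact hb1
    simp [h2]
  have hmul : ∀ n, ∑ k ∈ Finset.range (n + 1), b (k + 1) * tc Y (n - k) =
      if n = 0 then 1 else 0 := by
    intro n
    have h1 := tc_mul one_pos hpd hYd n
    have h2 : tc (fun x => p x * Y x) n = if n = 0 then 1 else 0 := by
      have h3 : (fun n : ℕ => if n = 0 then (1:ℂ) else 0) = tc (fun x => p x * Y x) := by
        refine tc_unique one_pos (hpd.mul hYd) ?_
        filter_upwards [hnb] with x hx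
        have h4 : p x * Y x = 1 := mul_inv_cancel₀ (hp0 x hx)
        rw [h4]
        have h5 := hasSum_single (f := fun k : ℕ => (if k = 0 then (1:ℂ) else 0) * x ^ k) 0
          (fun n hn => by simp [hn])
        simpa using h5
      exact (congrFun h3 n).symm
    rw [h2, Finset.Nat.sum_antidiagonal_eq_sum_range_succ_mk] at h1
    rw [h1]
    refine Finset.sum_congr rfl fun k _ => ?_
    rw [← hpt]
  refine ⟨f, Y, hf, hYd, hY0, hfY, hY1, hmul, ?_⟩
  have hsum : ∀ z ∈ ball (0:ℂ) 1, HasSum (fun j => tc Y j * z ^ j) (Y z) := fun z hz =>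
    hasSum_tc hYd hz
  -- the area theorem
  have harea : ∀ r : ℝ, 0 < r → r < 1 →
      ∑' j : ℕ, ((j : ℝ) - (1 : ℕ)) * ‖tc Y j‖ ^ 2 * r ^ (2 * j) ≤ 0 := by
    intro r hr0 hr1
    refine Pool.Agent.Helper405.Area.area (h := fun z => Y z / z) (V := fun z => z) (P := Y)
      (m := 1) ?_ ?_ ?_ differentiable_id hYd ?_ hsum hr0 hr1
    · intro z hz
      have h1 : DifferentiableAt ℂ Y z :=
        (hYd z hz.1).differentiableAt (isOpen_ball.mem_nhds hz.1)
      exact (h1.div differentiableAt_id hz.2).differentiableWithinAt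
    · intro z hz w hw h
      have hz0 : z ≠ 0 := hz.2
      have hw0 : w ≠ 0 := hw.2
      have h1 := hfY z hz.1
      have h2 := hfY w hw.1
      have h3 := hY0 z hz.1
      have h4 := hY0 w hw.1
      apply hinj hz.1 hw.1
      simp only at h
      rw [div_eq_div_iff hz0 hw0] at h
      -- f z * Y z = z, f w * Y w = w
      have h5 : Y z * (f w * Y w) = Y w * (f z * Y z) := by rw [h1, h2, h]
      have h6 : (Y z * Y w) * (f z - f w) = 0 := by linear_combination -h5
      rcases mul_eq_zero.1 h6 with h7 | h7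
      · exact absurd h7 (mul_ne_zero h3 h4)
      · exact sub_eq_zero.1 h7
    · have h1 : Tendsto Y (𝓝[≠] 0) (𝓝 1) := by
        have h5 := (hYd.differentiableAt hnb).continuousAt.tendsto
        rw [tc_zero] at hY1
        rw [hY1] at h5
        exact h5.mono_left nhdsWithin_le_nhds
      have h2 : Tendsto (fun z : ℂ => z⁻¹) (𝓝[≠] 0) (Bornology.cobounded ℂ) :=
        tendsto_inv₀_nhdsNE_zero
      have h3 : Tendsto (fun z : ℂ => ‖Y z‖ * ‖z⁻¹‖) (𝓝[≠] 0) atTop := by
        refine Tendsto.pos_mul_atTop one_pos ?_ (tendsto_norm_cobounded_atTop.comp h2)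
        simpa using h1.norm
      rw [← tendsto_norm_atTop_iff_cobounded]
      refine h3.congr (fun z => ?_)
      rw [norm_div, norm_inv z, div_eq_mul_inv]
    · intro z hz
      have : z ≠ 0 := hz.2
      field_simp
  have hsm : ∀ r : ℝ, 0 < r → r < 1 →
      Summable fun j : ℕ => ((j : ℝ) - (1 : ℕ)) * ‖tc Y j‖ ^ 2 * r ^ (2 * j) := by
    intro r hr0 hr1
    have h1 := Pool.Agent.Helper405.Area.summable_of_hasSum hsum hr0.le hr1
    have h2 := Pool.Agent.Helper405.Area.summable_of_hasSum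
      (Pool.Agent.Helper405.Area.hasSum_Q hsum 1) hr0.le hr1
    have h3 : ∀ᶠ j in (cofinite : Filter ℕ), ‖tc Y j‖ * r ^ j ≤ 1 := by
      have := h1.tendsto_cofinite_zero
      exact this.eventually (ge_mem_nhds one_pos)
    refine Summable.of_norm_bounded_eventually
      (g := fun j => ‖((j : ℂ) - (1 : ℕ)) * tc Y j‖ * r ^ j) h2 ?_
    filter_upwards [h3] with j hj
    have h4 : ‖(j : ℂ) - (1 : ℕ)‖ = |(j : ℝ) - (1 : ℕ)| := by
      rw [← Real.norm_eq_abs, ← Complex.norm_real]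
      push_cast
      rfl
    have h6 : ‖((j : ℝ) - (1 : ℕ)) * ‖tc Y j‖ ^ 2 * r ^ (2 * j)‖ =
        |(j : ℝ) - (1 : ℕ)| * ‖tc Y j‖ ^ 2 * r ^ (2 * j) := by
      rw [Real.norm_eq_abs, abs_mul, abs_mul, abs_of_nonneg (by positivity : 0 ≤ ‖tc Y j‖ ^ 2),
        abs_of_nonneg (by positivity : 0 ≤ r ^ (2 * j))]
    have h7 : ‖((j : ℂ) - (1 : ℕ)) * tc Y j‖ = |(j : ℝ) - (1 : ℕ)| * ‖tc Y j‖ := by
      rw [norm_mul, h4]
    rw [h6, h7]
    have h5 : 0 ≤ |(j : ℝ) - (1 : ℕ)| * ‖tc Y j‖ * r ^ j := by positivity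
    calc |(j : ℝ) - (1 : ℕ)| * ‖tc Y j‖ ^ 2 * r ^ (2 * j)
        = (|(j : ℝ) - (1 : ℕ)| * ‖tc Y j‖ * r ^ j) * (‖tc Y j‖ * r ^ j) := by ring
      _ ≤ (|(j : ℝ) - (1 : ℕ)| * ‖tc Y j‖ * r ^ j) * 1 :=
          mul_le_mul_of_nonneg_left hj h5
      _ = |(j : ℝ) - (1 : ℕ)| * ‖tc Y j‖ * r ^ j := mul_one _
  intro N hN
  have hpart : ∀ r : ℝ, 0 < r → r < 1 →
      ∑ j ∈ Finset.range N, ((j : ℝ) - (1 : ℕ)) * ‖tc Y j‖ ^ 2 * r ^ (2 * j) ≤ 0 := by
    intro r hr0 hr1
    refine le_trans ((hsm r hr0 hr1).sum_le_tsum _ fun j hj => ?_) (harea r hr0 hr1)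
    have h1 : 1 ≤ j := by
      rw [Finset.mem_range] at hj
      omega
    have h2 : (1 : ℝ) ≤ j := by exact_mod_cast h1
    have h3 : (0:ℝ) ≤ (j : ℝ) - (1 : ℕ) := by
      push_cast
      linarith
    positivity
  have hcont : Continuous fun r : ℝ =>
      ∑ j ∈ Finset.range N, ((j : ℝ) - (1 : ℕ)) * ‖tc Y j‖ ^ 2 * r ^ (2 * j) := by fun_prop
  have hlim := (hcont.tendsto 1).mono_left (nhdsWithin_le_nhds (s := Iio 1))
  have hle := le_of_tendsto hlim (b := 0) (by
    filter_upwards [Ioo_mem_nhdsLT (show (0:ℝ) < 1 by norm_num)] with r hr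
    exact hpart r hr.1 hr.2)
  simpa using hle

end Pool.Agent.Y273.MU
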