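import Pool.Agent.Y273.MU.Disc

/-!
# Finite combinations of rotations

Owner helper273.
-/

set_option autoImplicit false

open Complex Metric Set Filter Topology

namespace Pool.Agent.Y273.MU

open Pool.Agent.H713R2

theorem sqrt_pos {y : ℂ} (hy : y ∈ slitPlane) : ∃ x : ℂ, x ^ 2 = y ∧ 0 < x.re := by
  obtain ⟨x, hx⟩ : ∃ x : ℂ, x ^ 2 = y := IsAlgClosed.exists_pow_nat_eq _ (by norm_num)
  have hre : x.re ≠ 0 := by
    intro h0
    have h1 : y.re = -(x.im ^ 2) := by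
      rw [← hx, pow_two, Complex.mul_re, h0]
      ring
    have h2 : y.im = 0 := by
      rw [← hx, pow_two, Complex.mul_im, h0]
      ring
    rcases hy with h | h
    · rw [h1] at h
      nlinarith [sq_nonneg x.im]
    · exact h h2
  rcases lt_or_gt_of_ne hre with h | h
  · exact ⟨-x, by rw [neg_sq, hx], by rw [Complex.neg_re]; linarith⟩
  · exact ⟨x, hx, h⟩

theorem dir {a b : ℂ} (ha : a ≠ 0) (hb : b ≠ 0) :
    ∃ e : ℂ, e ≠ 0 ∧ a / e ∈ slitPlane ∧ b / e ∈ slitPlane := by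
  by_cases h : b / a ∈ slitPlane
  · exact ⟨a, ha, by rw [div_self ha]; exact Complex.one_mem_slitPlane, h⟩
  · have hne : b / a ≠ 0 := div_ne_zero hb ha
    rw [Complex.mem_slitPlane_iff, not_or, not_lt, not_not] at h
    have hre : (b / a).re ≠ 0 := by
      intro h0
      exact hne (Complex.ext h0 h.2)
    refine ⟨a * I, mul_ne_zero ha I_ne_zero, Or.inr ?_, Or.inr ?_⟩
    · have h1 : a / (a * I) = -I := by
        field_simp
        rw [I_sq]
        ring
      rw [h1]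
      simp
    · have h1 : b / (a * I) = (b / a) * (-I) := by
        field_simp
        rw [I_sq]
        ring
      rw [h1, Complex.mul_im]
      simp only [neg_re, I_re, neg_im, I_im, neg_zero, mul_zero, add_zero, mul_neg, mul_one]
      exact neg_ne_zero.2 hre

/-- near a double pole on the boundary all large values in a suitable direction are attained -/
theorem solve {h : ℂ → ℂ} (hd : DifferentiableOn ℂ h (ball 0 1)) (hi : InjOn h (ball 0 1))
    {w c e x : ℂ} {δ B ε : ℝ} (hw : ‖w‖ = 1) (hc : c ≠ 0) (he : e ≠ 0) (hδ : 0 < δ)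
    (hB : 0 ≤ B) (hε : 0 < ε)
    (hb : ∀ z ∈ ball (0:ℂ) 1, ‖1 - w * z‖ < δ → ‖h z - c / (1 - w * z) ^ 2‖ ≤ B / ‖1 - w * z‖)
    (hx : x ^ 2 = c / e) (hx0 : 0 < x.re) :
    ∃ t0 : ℝ, 0 < t0 ∧ ∀ t : ℝ, 0 < t → t < t0 →
      ∃ z ∈ ball (0:ℂ) 1, ‖1 - w * z‖ < ε ∧ h z = e / (t : ℂ) ^ 2 := by
  have hxn : 0 < ‖x‖ := by
    rw [norm_pos_iff]
    rintro rfl
    simp at hx0
  have hcn : 0 < ‖c‖ := norm_pos_iff.2 hc
  set k : ℝ := x.re / ‖x‖ with hk
  have hk0 : 0 < k := div_pos hx0 hxn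
  have hk1 : k ≤ 1 := by
    rw [hk, div_le_one hxn]
    exact (le_abs_self _).trans (Complex.abs_re_le_norm x)
  have hkx : k * ‖x‖ = x.re := by rw [hk]; field_simp
  -- smallness of `T = t ‖x‖`
  obtain ⟨T0, hT0, hT1, hT2, hT3, hT4⟩ : ∃ T0 : ℝ, 0 < T0 ∧ T0 * 9 ≤ 4 * k ∧ T0 * 2 ≤ δ ∧
      T0 * 2 ≤ ε ∧ 24 * (B + 1) * T0 ≤ ‖c‖ * k := by
    refine ⟨min (min (4 * k / 9) (δ / 2)) (min (ε / 2) (‖c‖ * k / (24 * (B + 1)))), ?_, ?_, ?_,
      ?_, ?_⟩
    · positivity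
    · have h1 := (min_le_left (min (4 * k / 9) (δ / 2))
        (min (ε / 2) (‖c‖ * k / (24 * (B + 1))))).trans (min_le_left _ _)
      linarith
    · have h1 := (min_le_left (min (4 * k / 9) (δ / 2))
        (min (ε / 2) (‖c‖ * k / (24 * (B + 1))))).trans (min_le_right _ _)
      linarith
    · have h1 := (min_le_right (min (4 * k / 9) (δ / 2))
        (min (ε / 2) (‖c‖ * k / (24 * (B + 1))))).trans (min_le_left _ _)
      linarith
    · have h1 := (min_le_right (min (4 * k / 9) (δ / 2))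
        (min (ε / 2) (‖c‖ * k / (24 * (B + 1))))).trans (min_le_right _ _)
      rw [le_div_iff₀ (by positivity)] at h1
      linarith
  refine ⟨T0 / ‖x‖, by positivity, fun t ht htt => ?_⟩
  set T : ℝ := t * ‖x‖ with hT
  have hTpos : 0 < T := by positivity
  have hTT : T < T0 := by
    rw [lt_div_iff₀ hxn] at htt
    exact htt
  set s0 : ℂ := t * x with hs0
  have hs0n : ‖s0‖ = T := by
    rw [hs0, norm_mul, Complex.norm_real, Real.norm_of_nonneg ht.le]
  have hs0re : s0.re = k * T := by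
    rw [hs0, Complex.re_ofReal_mul, hT]
    rw [← hkx]
    ring
  have hs00 : s0 ≠ 0 := by
    rw [← norm_pos_iff, hs0n]
    exact hTpos
  have hw0 : w ≠ 0 := by
    rintro rfl
    simp at hw
  set z0 : ℂ := w⁻¹ * (1 - s0) with hz0
  have hwz0 : 1 - w * z0 = s0 := by
    rw [hz0]
    field_simp
    ring
  set r : ℝ := k / 2 * T with hr
  have hrpos : 0 < r := by positivity
  have hrT : r ≤ T / 2 := by
    rw [hr]
    nlinarith
  -- the points of the closed ball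
  have hcl : ∀ z ∈ closedBall z0 r, ‖(1 - w * z) - s0‖ = ‖z - z0‖ ∧ ‖1 - w * z‖ ≤ 3 / 2 * T ∧
      T / 2 ≤ ‖1 - w * z‖ ∧ z ∈ ball (0:ℂ) 1 := by
    intro z hz
    rw [mem_closedBall, dist_eq_norm] at hz
    have e1 : (1 - w * z) - s0 = -(w * (z - z0)) := by
      rw [← hwz0]
      ring
    have e2 : ‖(1 - w * z) - s0‖ = ‖z - z0‖ := by
      rw [e1, norm_neg, norm_mul, hw, one_mul]
    have e3 : ‖1 - w * z‖ ≤ 3 / 2 * T := by
      have : 1 - w * z = s0 + ((1 - w * z) - s0) := by ring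
      rw [this]
      refine (norm_add_le _ _).trans ?_
      rw [hs0n, e2]
      linarith
    have e4 : T / 2 ≤ ‖1 - w * z‖ := by
      have h1 := norm_sub_norm_le s0 (s0 - (1 - w * z))
      have h2 : s0 - (s0 - (1 - w * z)) = 1 - w * z := by ring
      rw [h2, hs0n, norm_sub_rev, e2] at h1
      linarith
    refine ⟨e2, e3, e4, ?_⟩
    have e5 : k * T / 2 ≤ (1 - w * z).re := by
      have h1 : (1 - w * z).re = s0.re + ((1 - w * z) - s0).re := by simp
      have h2 : -‖(1 - w * z) - s0‖ ≤ ((1 - w * z) - s0).re :=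
        (abs_le.1 (Complex.abs_re_le_norm _)).1
      rw [h1, hs0re]
      rw [e2] at h2
      have h3 : r = k * T / 2 := by rw [hr]; ring
      linarith
    have e6 : ‖w * z‖ ^ 2 = 1 - 2 * (1 - w * z).re + ‖1 - w * z‖ ^ 2 := by
      rw [← Complex.normSq_eq_norm_sq, ← Complex.normSq_eq_norm_sq, Complex.normSq_apply,
        Complex.normSq_apply]
      simp only [Complex.sub_re, Complex.one_re, Complex.sub_im, Complex.one_im]
      ring
    have e7 : ‖w * z‖ = ‖z‖ := by rw [norm_mul, hw, one_mul]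
    rw [e7] at e6
    rw [mem_ball_zero_iff]
    have e8 : ‖1 - w * z‖ ^ 2 ≤ (3 / 2 * T) ^ 2 := by gcongr
    have e9 : ‖z‖ ^ 2 < 1 := by
      rw [e6]
      nlinarith
    exact (sq_lt_one_iff₀ (norm_nonneg _)).1 e9
  have hz0m : z0 ∈ closedBall z0 r := mem_closedBall_self hrpos.le
  have hsub : closedBall z0 r ⊆ ball 0 1 := fun z hz => (hcl z hz).2.2.2
  have hdc : DiffContOnCl ℂ h (ball z0 r) := hd.diffContOnCl_ball hsub
  have hclose : ∀ z ∈ closedBall z0 r, ‖h z - c / (1 - w * z) ^ 2‖ ≤ 2 * B / T := by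
    intro z hz
    obtain ⟨-, h2, h3, h4⟩ := hcl z hz
    refine (hb z h4 (by linarith)).trans ?_
    have h5 : 0 < T / 2 := by positivity
    calc B / ‖1 - w * z‖ ≤ B / (T / 2) := by gcongr
      _ = 2 * B / T := by field_simp
  have hsph : ∀ z ∈ sphere z0 r, ‖c‖ * k / 3 / T ^ 2 - 4 * B / T ≤ ‖h z - h z0‖ := by
    intro z hz
    have hzc := sphere_subset_closedBall hz
    obtain ⟨h1, h2, h3, h4⟩ := hcl z hzc
    rw [mem_sphere, dist_eq_norm] at hz
    rw [hz] at h1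
    have h5 := hclose z hzc
    have h6 := hclose z0 hz0m
    rw [hwz0] at h6
    set s : ℂ := 1 - w * z with hs
    have hsn : 0 < ‖s‖ := by linarith
    have hs1 : s ≠ 0 := norm_pos_iff.1 hsn
    have h7 : ‖c / s ^ 2 - c / s0 ^ 2‖ = ‖c‖ * (r * ‖s + s0‖) / (‖s‖ ^ 2 * T ^ 2) := by
      have e1 : c / s ^ 2 - c / s0 ^ 2 = c * (-(s - s0) * (s + s0)) / (s ^ 2 * s0 ^ 2) := by
        field_simp
        ring
      rw [e1, norm_div, norm_mul, norm_mul, norm_neg, h1, norm_mul, norm_pow, norm_pow, hs0n]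
    have h8 : 3 / 2 * T ≤ ‖s + s0‖ := by
      have e1 := norm_sub_norm_le (2 * s0) (s0 - s)
      have e2 : 2 * s0 - (s0 - s) = s + s0 := by ring
      rw [e2, norm_sub_rev, h1, norm_mul, hs0n] at e1
      have e3 : ‖(2:ℂ)‖ = 2 := by norm_num
      rw [e3] at e1
      linarith
    have h9 : ‖c‖ * k / 3 / T ^ 2 ≤ ‖c / s ^ 2 - c / s0 ^ 2‖ := by
      rw [h7, le_div_iff₀ (by positivity)]
      have e1 : ‖s‖ ^ 2 ≤ (3 / 2 * T) ^ 2 := by gcongr
      calc ‖c‖ * k / 3 / T ^ 2 * (‖s‖ ^ 2 * T ^ 2) = ‖c‖ * k / 3 * ‖s‖ ^ 2 := by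
            field_simp
        _ ≤ ‖c‖ * k / 3 * (3 / 2 * T) ^ 2 := by gcongr
        _ = ‖c‖ * (r * (3 / 2 * T)) := by rw [hr]; ring
        _ ≤ ‖c‖ * (r * ‖s + s0‖) := by gcongr
    have h10 : ‖c / s ^ 2 - c / s0 ^ 2‖ ≤ ‖h z - h z0‖ + ‖h z - c / s ^ 2‖ +
        ‖h z0 - c / s0 ^ 2‖ := by
      have e1 : c / s ^ 2 - c / s0 ^ 2 = (h z - h z0) - (h z - c / s ^ 2) +
          (h z0 - c / s0 ^ 2) := by ring
      rw [e1]
      refine (norm_add_le _ _).trans ?_
      gcongr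
      exact norm_sub_le _ _
    have h11 : 4 * B / T = 2 * B / T + 2 * B / T := by ring
    linarith
  have hfreq : ∃ᶠ z in 𝓝 z0, h z ≠ h z0 := by
    have h1 : ∀ᶠ z in 𝓝[≠] z0, h z ≠ h z0 := by
      have h2 : ball (0:ℂ) 1 ∈ 𝓝 z0 := isOpen_ball.mem_nhds (hsub hz0m)
      filter_upwards [nhdsWithin_le_nhds h2, self_mem_nhdsWithin] with z hz1 hz2 h3
      exact hz2 (hi hz1 (hsub hz0m) h3)
    exact h1.frequently.filter_mono nhdsWithin_le_nhds
  have himg := hdc.ball_subset_image_closedBall hrpos hsph hfreq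
  have hmem : e / (t : ℂ) ^ 2 ∈ ball (h z0) ((‖c‖ * k / 3 / T ^ 2 - 4 * B / T) / 2) := by
    rw [mem_ball, dist_eq_norm]
    have h1 := hclose z0 hz0m
    rw [hwz0] at h1
    have htc : (t : ℂ) ≠ 0 := by exact_mod_cast ht.ne'
    have h2 : c / s0 ^ 2 = e / (t : ℂ) ^ 2 := by
      have hx2 : x ≠ 0 := norm_pos_iff.1 hxn
      rw [hs0, mul_pow, hx]
      field_simp
    rw [h2, norm_sub_rev] at h1
    refine lt_of_le_of_lt h1 ?_
    rw [lt_div_iff₀ (by norm_num), lt_sub_iff_add_lt, div_div, lt_div_iff₀ (by positivity)]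
    have h3 : (2 * B / T * 2 + 4 * B / T) * (3 * T ^ 2) = 24 * B * T := by
      field_simp
      ring
    rw [h3]
    have h4 : 24 * (B + 1) * T < 24 * (B + 1) * T0 :=
      mul_lt_mul_of_pos_left hTT (by positivity)
    nlinarith
  obtain ⟨z, hz, hz2⟩ := himg hmem
  obtain ⟨-, h2, -, h4⟩ := hcl z hz
  exact ⟨z, h4, by linarith, hz2⟩

/-- the sum of the series of a rotated Koebe function -/
theorem hasSum_rot {w : ℂ} (hw : ‖w‖ = 1) {z : ℂ} (hz : z ∈ ball (0:ℂ) 1) :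
    HasSum (fun n : ℕ => (n : ℂ) * w ^ (n - 1) * z ^ n) (z / (1 - w * z) ^ 2) := by
  have hw0 : w ≠ 0 := by
    rintro rfl
    simp at hw
  have hz1 : ‖w * z‖ < 1 := by
    rw [norm_mul, hw, one_mul]
    simpa using hz
  have h8 := (hasSum_coe_mul_geometric_of_norm_lt_one hz1).mul_left w⁻¹
  have h9 : (fun n : ℕ => w⁻¹ * ((n : ℂ) * (w * z) ^ n)) =
      fun n : ℕ => (n : ℂ) * w ^ (n - 1) * z ^ n := by
    funext n
    rcases Nat.eq_zero_or_pos n with h | h
    · subst h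
      simp
    · obtain ⟨m, rfl⟩ : ∃ m, n = m + 1 := ⟨n - 1, by omega⟩
      rw [Nat.add_sub_cancel, mul_pow, pow_succ w]
      field_simp
  have h10 : w⁻¹ * (w * z / (1 - w * z) ^ 2) = z / (1 - w * z) ^ 2 := by
    field_simp
  rwa [h9, h10] at h8

/-- at most one rotation -/
theorem one_atom (m : ℕ) (w c : Fin m → ℂ) (hw : ∀ j, ‖w j‖ = 1) (hinj : Function.Injective w)
    (hc : ∀ j, c j ≠ 0) (ρ : ℕ → ℂ) (hρ : Summable fun n : ℕ => (n : ℝ) * ‖ρ n‖) (l : ℕ → ℂ)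
    (hl : ∀ n, 1 ≤ n → l n = ∑ j, c j * w j ^ (n - 1) + ρ n) (hm : IsMultiplier l) :
    m ≤ 1 := by
  by_contra hcon
  push Not at hcon
  obtain ⟨i, k, hik⟩ : ∃ i k : Fin m, i ≠ k :=
    ⟨⟨0, by omega⟩, ⟨1, by omega⟩, by simp [Fin.ext_iff]⟩
  obtain ⟨-, -, h, hh, hi⟩ := hm _ koebe_inS
  have hd := diff_of_hasSum _ h hh
  obtain ⟨M, hM⟩ : ∃ M : ℝ, M = ∑' n : ℕ, (n : ℝ) * ‖ρ n‖ := ⟨_, rfl⟩
  have hM0 : 0 ≤ M := by
    rw [hM]
    exact tsum_nonneg fun n => by positivity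
  -- the form of `h`
  have hform : ∀ z ∈ ball (0:ℂ) 1, ‖h z - ∑ j, c j * (z / (1 - w j * z) ^ 2)‖ ≤ M := by
    intro z hz
    have hz1 : ‖z‖ < 1 := by simpa using hz
    have h1 : HasSum (fun n : ℕ => ∑ j, c j * ((n : ℂ) * w j ^ (n - 1) * z ^ n))
        (∑ j, c j * (z / (1 - w j * z) ^ 2)) :=
      hasSum_sum fun j _ => (hasSum_rot (hw j) hz).mul_left (c j)
    have h2 := (hh z hz).sub h1
    have h3 : (fun n : ℕ => l n * (n : ℂ) * z ^ n -
        ∑ j, c j * ((n : ℂ) * w j ^ (n - 1) * z ^ n)) = fun n : ℕ => (n : ℂ) * ρ n * z ^ n := by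
      funext n
      rcases Nat.eq_zero_or_pos n with h | h
      · subst h
        simp
      · rw [hl n h]
        have h4 : ∑ j, c j * ((n : ℂ) * w j ^ (n - 1) * z ^ n) =
            (∑ j, c j * w j ^ (n - 1)) * (n * z ^ n) := by
          rw [Finset.sum_mul]
          exact Finset.sum_congr rfl fun j _ => by ring
        rw [h4]
        ring
    rw [h3] at h2
    rw [← h2.tsum_eq, hM]
    have h5 : ∀ n : ℕ, ‖(n : ℂ) * ρ n * z ^ n‖ ≤ (n : ℝ) * ‖ρ n‖ := by
      intro n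
      rw [norm_mul, norm_mul, norm_pow, Complex.norm_natCast]
      exact mul_le_of_le_one_right (by positivity) (pow_le_one₀ (norm_nonneg _) hz1.le)
    exact tsum_of_norm_bounded hρ.hasSum h5
  -- the estimate near each pole
  have hpole : ∀ i : Fin m, ∃ δ B : ℝ, 0 < δ ∧ 0 ≤ B ∧ ∀ z ∈ ball (0:ℂ) 1, ‖1 - w i * z‖ < δ →
      ‖h z - c i * (w i)⁻¹ / (1 - w i * z) ^ 2‖ ≤ B / ‖1 - w i * z‖ := by
    intro i
    have hwi0 : w i ≠ 0 := by
      intro h0
      have := hw i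
      rw [h0, norm_zero] at this
      norm_num at this
    have hcont : ContinuousAt (fun z : ℂ => ∑ j ∈ Finset.univ.erase i, c j * (z / (1 - w j * z) ^ 2))
        (w i)⁻¹ := by
      refine tendsto_finsetSum _ fun j hj => ?_
      have hne : (1 - w j * (w i)⁻¹) ^ 2 ≠ 0 := by
        apply pow_ne_zero
        intro h0
        have h1 : w j = w i := by
          have h2 : w j * (w i)⁻¹ = 1 := (sub_eq_zero.1 h0).symm
          field_simp at h2
          exact h2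
        exact (Finset.mem_erase.1 hj).1 (hinj h1)
      have h3 : ContinuousAt (fun z : ℂ => c j * (z / (1 - w j * z) ^ 2)) (w i)⁻¹ :=
        continuousAt_const.mul (continuousAt_id.div (by fun_prop) hne)
      exact h3
    obtain ⟨δ, hδ, hδ1⟩ := Metric.continuousAt_iff.1 hcont 1 one_pos
    set C : ℝ := ‖∑ j ∈ Finset.univ.erase i, c j * ((w i)⁻¹ / (1 - w j * (w i)⁻¹) ^ 2)‖ + 1 with hC
    have hC0 : 0 ≤ C := by positivity
    refine ⟨min δ 1, ‖c i‖ + C + M, by positivity, by positivity, fun z hz hs => ?_⟩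
    have hsδ := lt_of_lt_of_le hs (min_le_left _ _)
    have hs1 := lt_of_lt_of_le hs (min_le_right _ _)
    set s : ℂ := 1 - w i * z with hsdef
    have hs0 : s ≠ 0 := by
      intro h0
      have h1 : w i * z = 1 := (sub_eq_zero.1 h0).symm
      have h2 : ‖z‖ = 1 := by
        have := congrArg norm h1
        rwa [norm_mul, hw i, one_mul, norm_one] at this
      have h3 : ‖z‖ < 1 := by simpa using hz
      linarith
    have hsn : 0 < ‖s‖ := norm_pos_iff.2 hs0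
    have hdist : dist z (w i)⁻¹ < δ := by
      have h1 : z - (w i)⁻¹ = -((w i)⁻¹ * s) := by
        rw [hsdef]
        field_simp
        ring
      rw [dist_eq_norm, h1, norm_neg, norm_mul, norm_inv, hw i, inv_one, one_mul]
      exact hsδ
    have hrest : ‖∑ j ∈ Finset.univ.erase i, c j * (z / (1 - w j * z) ^ 2)‖ ≤ C := by
      have h1 := hδ1 hdist
      rw [dist_eq_norm] at h1
      have h2 := norm_sub_norm_le (∑ j ∈ Finset.univ.erase i, c j * (z / (1 - w j * z) ^ 2))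
        (∑ j ∈ Finset.univ.erase i, c j * ((w i)⁻¹ / (1 - w j * (w i)⁻¹) ^ 2))
      rw [hC]
      linarith
    have hsplit : ∑ j, c j * (z / (1 - w j * z) ^ 2) = c i * (z / s ^ 2) +
        ∑ j ∈ Finset.univ.erase i, c j * (z / (1 - w j * z) ^ 2) := by
      rw [← Finset.add_sum_erase _ _ (Finset.mem_univ i)]
    have hz2 : c i * (z / s ^ 2) = c i * (w i)⁻¹ / s ^ 2 - c i * (w i)⁻¹ / s := by
      have h1 : z = (w i)⁻¹ * (1 - s) := by
        rw [hsdef]
        field_simp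
        ring
      rw [h1]
      field_simp
    have hF := hform z hz
    rw [hsplit, hz2] at hF
    have e1 : h z - c i * (w i)⁻¹ / s ^ 2 =
        (h z - (c i * (w i)⁻¹ / s ^ 2 - c i * (w i)⁻¹ / s +
          ∑ j ∈ Finset.univ.erase i, c j * (z / (1 - w j * z) ^ 2))) +
        (∑ j ∈ Finset.univ.erase i, c j * (z / (1 - w j * z) ^ 2)) - c i * (w i)⁻¹ / s := by
      ring
    rw [e1]
    refine (norm_sub_le _ _).trans ?_
    have e2 : ‖c i * (w i)⁻¹ / s‖ = ‖c i‖ / ‖s‖ := by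
      rw [norm_div, norm_mul, norm_inv, hw i, inv_one, mul_one]
    rw [e2, le_div_iff₀ hsn, add_mul, div_mul_cancel₀ _ hsn.ne']
    have e3 := (norm_add_le (h z - (c i * (w i)⁻¹ / s ^ 2 - c i * (w i)⁻¹ / s +
          ∑ j ∈ Finset.univ.erase i, c j * (z / (1 - w j * z) ^ 2)))
        (∑ j ∈ Finset.univ.erase i, c j * (z / (1 - w j * z) ^ 2))).trans (add_le_add hF hrest)
    have e4 := mul_le_mul e3 hs1.le hsn.le (by positivity)
    linarith
  obtain ⟨δ1, B1, hδ1, hB1, hb1⟩ := hpole i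
  obtain ⟨δ2, B2, hδ2, hB2, hb2⟩ := hpole k
  have hwi0 : ∀ i, w i ≠ 0 := by
    intro i h0
    have := hw i
    rw [h0, norm_zero] at this
    norm_num at this
  have hC1 : c i * (w i)⁻¹ ≠ 0 := mul_ne_zero (hc i) (inv_ne_zero (hwi0 i))
  have hC2 : c k * (w k)⁻¹ ≠ 0 := mul_ne_zero (hc k) (inv_ne_zero (hwi0 k))
  obtain ⟨e, he, h1, h2⟩ := dir hC1 hC2
  obtain ⟨x1, hx1, hx1'⟩ := sqrt_pos h1
  obtain ⟨x2, hx2, hx2'⟩ := sqrt_pos h2
  have hε : 0 < ‖(w i)⁻¹ - (w k)⁻¹‖ / 2 := by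
    have : (w i)⁻¹ - (w k)⁻¹ ≠ 0 := by
      intro h0
      exact hik (hinj (inv_injective (sub_eq_zero.1 h0)))
    have := norm_pos_iff.2 this
    positivity
  obtain ⟨t1, ht1, H1⟩ := solve hd hi (hw i) hC1 he hδ1 hB1 hε hb1 hx1 hx1'
  obtain ⟨t2, ht2, H2⟩ := solve hd hi (hw k) hC2 he hδ2 hB2 hε hb2 hx2 hx2'
  have htpos : 0 < min t1 t2 / 2 := by positivity
  obtain ⟨z1, hz1, hz1', hz1''⟩ := H1 (min t1 t2 / 2) htpos (by
    have := min_le_left t1 t2
    linarith [lt_min ht1 ht2])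
  obtain ⟨z2, hz2, hz2', hz2''⟩ := H2 (min t1 t2 / 2) htpos (by
    have := min_le_right t1 t2
    linarith [lt_min ht1 ht2])
  have heq : z1 = z2 := hi hz1 hz2 (by rw [hz1'', hz2''])
  subst heq
  have g : ∀ i, ‖z1 - (w i)⁻¹‖ = ‖1 - w i * z1‖ := by
    intro i
    have h0 := hwi0 i
    have h1 : z1 - (w i)⁻¹ = -((w i)⁻¹ * (1 - w i * z1)) := by
      field_simp
      ring
    rw [h1, norm_neg, norm_mul, norm_inv, hw i, inv_one, one_mul]
  rw [← g] at hz1' hz2'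
  have h3 : ‖(w i)⁻¹ - (w k)⁻¹‖ ≤ ‖z1 - (w i)⁻¹‖ + ‖z1 - (w k)⁻¹‖ := by
    have h4 : (w i)⁻¹ - (w k)⁻¹ = (z1 - (w k)⁻¹) - (z1 - (w i)⁻¹) := by ring
    rw [h4, add_comm]
    exact norm_sub_le _ _
  linarith

/-- finite combinations of rotations -/
theorem rotations (m : ℕ) (w c : Fin m → ℂ) (hw : ∀ j, ‖w j‖ = 1)
    (hinj : Function.Injective w) (hc : ∀ j, c j ≠ 0) (l : ℕ → ℂ)
    (hl : ∀ n, 1 ≤ n → l n = ∑ j, c j * w j ^ (n - 1)) :
    IsMultiplier l ↔ m = 1 ∧ ∀ j, c j = 1 := by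
  constructor
  · intro hm
    have h1 := one_atom m w c hw hinj hc (fun _ => 0) (by simpa using summable_zero) l
      (fun n hn => by rw [hl n hn, add_zero]) hm
    have h2 : l 1 = 1 := by simpa using (hm _ koebe_inS).2.1
    rw [hl 1 le_rfl] at h2
    simp only [Nat.sub_self, pow_zero, mul_one] at h2
    have h3 : m = 1 := by
      rcases Nat.lt_or_ge m 1 with h | h
      · exfalso
        obtain rfl : m = 0 := by omega
        simp at h2
      · omega
    subst h3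
    refine ⟨rfl, fun j => ?_⟩
    have h4 : j = 0 := Subsingleton.elim _ _
    rw [h4]
    simpa using h2
  · rintro ⟨rfl, h1⟩
    refine rot_mult (u := w 0) ?_ (hw 0).le fun n hn => ?_
    · intro h0
      have := hw 0
      rw [h0, norm_zero] at this
      norm_num at this
    · rw [hl n hn]
      simp [h1]

end Pool.Agent.Y273.MU
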